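import Pool.Agent.Helper78.KX.Defs

/-!
# From exponential moments of blocks to dimensions, for families
-/

set_option autoImplicit false

namespace Pool.Agent.Helper44.KX

open MeasureTheory Set Filter Topology
open Pool.Agent.Helper78.KD (Fam S Tr FT upper_tree exp_size)
open Pool.Agent.Helper18.KD (lower_tree)
open Pool.Agent.Helper53.KD (exists_tree size)

variable {u v : ℕ → ℝ → ℝ} {a b β₁ β₂ : ℝ}

theorem incr_succ (hF : Fam u v a b β₁ β₂) (n : ℕ) {x y : ℝ} (hx : x ∈ Icc a b) (hy : y ∈ Icc a b) (hxy : x ≤ y) :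
    β₁ * (u n y - u n x) ≤ u (n + 1) y - u (n + 1) x := by
  have hsub : Icc x y ⊆ Icc a b := Icc_subset_Icc hx.1 hy.2
  have hmono : MonotoneOn (fun x => u (n + 1) x - β₁ * u n x) (Icc x y) := by
    have hd : ∀ z ∈ Icc a b, HasDerivAt (fun x => u (n + 1) x - β₁ * u n x) (v (n + 1) z - β₁ * v n z) z :=
      fun z hz => (hF.deriv (n + 1) z hz).sub ((hF.deriv n z hz).const_mul β₁)
    refine monotoneOn_of_deriv_nonneg (convex_Icc x y)
      (fun z hz => (hd z (hsub hz)).continuousAt.continuousWithinAt) (fun z hz => ?_) (fun z hz => ?_)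
    · rw [interior_Icc] at hz
      exact (hd z (hsub (Ioo_subset_Icc_self hz))).differentiableAt.differentiableWithinAt
    · rw [interior_Icc] at hz
      rw [(hd z (hsub (Ioo_subset_Icc_self hz))).deriv]
      linarith [(hF.growth n z (hsub (Ioo_subset_Icc_self hz))).1]
  have := hmono (left_mem_Icc.mpr hxy) (right_mem_Icc.mpr hxy) hxy
  simp only at this
  linarith

theorem incr_nonneg (hF : Fam u v a b β₁ β₂) (n : ℕ) {x y : ℝ} (hx : x ∈ Icc a b) (hy : y ∈ Icc a b) (hxy : x ≤ y) :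
    0 ≤ u n y - u n x := by
  have hsub : Icc x y ⊆ Icc a b := Icc_subset_Icc hx.1 hy.2
  have hmono : MonotoneOn (u n) (Icc x y) := by
    refine monotoneOn_of_deriv_nonneg (convex_Icc x y)
      (fun z hz => (hF.deriv n z (hsub hz)).continuousAt.continuousWithinAt) (fun z hz => ?_) (fun z hz => ?_)
    · rw [interior_Icc] at hz
      exact (hF.deriv n z (hsub (Ioo_subset_Icc_self hz))).differentiableAt.differentiableWithinAt
    · rw [interior_Icc] at hz
      rw [(hF.deriv n z (hsub (Ioo_subset_Icc_self hz))).deriv]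
      exact (hF.pos n z (hsub (Ioo_subset_Icc_self hz))).le
  have := hmono (left_mem_Icc.mpr hxy) (right_mem_Icc.mpr hxy) hxy
  linarith

theorem incr_sum (hF : Fam u v a b β₁ β₂) (n : ℕ) {x y : ℝ} (hx : x ∈ Icc a b) (hy : y ∈ Icc a b) (hxy : x ≤ y) :
    (β₁ - 1) * ∑ j ∈ Finset.range n, (u j y - u j x) ≤ u n y - u n x := by
  induction n with
  | zero => simpa using incr_nonneg hF 0 hx hy hxy
  | succ n ih =>
    rw [Finset.sum_range_succ]
    have := incr_succ hF n hx hy hxy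
    nlinarith

/-- oscillation of the sums on an interval of level `n` -/
theorem S_osc (hF : Fam u v a b β₁ β₂) {φ : ℝ → ℝ} {K : ℝ} (hK : 0 ≤ K)
    (hlip : ∀ s t, |φ s - φ t| ≤ K * |s - t|) (n : ℕ) {x y : ℝ} (hx : x ∈ Icc a b) (hy : y ∈ Icc a b) (hxy : x ≤ y)
    (h2 : u n y - u n x ≤ 2) : |S φ u n y - S φ u n x| ≤ 2 * K * (β₁ / (β₁ - 1)) := by
  have hβ := hF.hβ
  have h1 : |S φ u n y - S φ u n x| ≤ K * ∑ j ∈ Finset.range n, (u j y - u j x) := by
    unfold S
    rw [← Finset.sum_sub_distrib, Finset.mul_sum]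
    refine (Finset.abs_sum_le_sum_abs _ _).trans (Finset.sum_le_sum fun j _ => ?_)
    have h3 := hlip (u j y) (u j x)
    rwa [abs_of_nonneg (incr_nonneg hF j hx hy hxy)] at h3
  have h4 := incr_sum hF n hx hy hxy
  have h5 : ∑ j ∈ Finset.range n, (u j y - u j x) ≤ 2 * (β₁ / (β₁ - 1)) := by
    rw [mul_div_assoc', le_div_iff₀ (by linarith)]
    linarith
  calc |S φ u n y - S φ u n x| ≤ K * ∑ j ∈ Finset.range n, (u j y - u j x) := h1
    _ ≤ K * (2 * (β₁ / (β₁ - 1))) := by gcongr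
    _ = _ := by ring

/-- the sums at the left endpoints -/
noncomputable def ML (φ : ℝ → ℝ) (u : ℕ → ℝ → ℝ) (L : ℕ) (T : Tr) (k i : ℕ) : ℝ := S φ u (k * L) (T.t k i)

section tree

variable {T : Tr} {L : ℕ} {φ : ℝ → ℝ} {K : ℝ}

/-- the increment along the tree against the block -/
theorem ML_block (hF : Fam u v a b β₁ β₂) (hT : FT T u a b L) (hK : 0 ≤ K)
    (hlip : ∀ s t, |φ s - φ t| ≤ K * |s - t|) {k i j : ℕ} (hi : i < T.N k) (hj : j ∈ T.ch k i) {x : ℝ}
    (hx : x ∈ T.cell (k + 1) j) :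
    |ML φ u L T (k + 1) j - ML φ u L T k i - ∑ l ∈ Finset.Ico (k * L) (k * L + L), φ (u l x)|
      ≤ 4 * K * (β₁ / (β₁ - 1)) := by
  have hjN := T.ch_lt k hi hj
  have hcm := T.ch_mem k hi hj
  have hti := hT.mem k i hi.le
  have hti1 := hT.mem k (i + 1) hi
  have htj := hT.mem (k + 1) j hjN.le
  have htj1 := hT.mem (k + 1) (j + 1) hjN
  have hxab : x ∈ Icc a b := ⟨htj.1.trans hx.1, hx.2.trans htj1.2⟩
  have hix : T.t k i ≤ x := hcm.1.trans hx.1
  have hxi1 : x ≤ T.t k (i + 1) := hx.2.trans hcm.2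
  have hu1 : u ((k + 1) * L) x - u ((k + 1) * L) (T.t (k + 1) j) ≤ 2 := by
    have h1 := incr_nonneg hF ((k + 1) * L) hxab htj1 hx.2
    have h2 := (hT.inc (k + 1) j hjN).2
    linarith
  have hu2 : u (k * L) x - u (k * L) (T.t k i) ≤ 2 := by
    have h1 := incr_nonneg hF (k * L) hxab hti1 hxi1
    have h2 := (hT.inc k i hi).2
    linarith
  have h1 := S_osc hF hK hlip ((k + 1) * L) htj hxab hx.1 hu1
  have h2 := S_osc hF hK hlip (k * L) hti hxab hix hu2
  have h3 : S φ u ((k + 1) * L) x = S φ u (k * L) x + ∑ l ∈ Finset.Ico (k * L) (k * L + L), φ (u l x) := by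
    unfold S
    rw [Finset.sum_range_add_sum_Ico _ (by omega), show (k + 1) * L = k * L + L by ring]
  have h4 : ML φ u L T (k + 1) j - ML φ u L T k i - ∑ l ∈ Finset.Ico (k * L) (k * L + L), φ (u l x)
      = -(S φ u ((k + 1) * L) x - S φ u ((k + 1) * L) (T.t (k + 1) j)) + (S φ u (k * L) x - S φ u (k * L) (T.t k i)) := by
    unfold ML
    rw [h3]
    ring
  rw [h4]
  refine (abs_add_le _ _).trans ?_
  rw [abs_neg]
  linarith

theorem lip_cont (hK : 0 ≤ K) (hlip : ∀ s t, |φ s - φ t| ≤ K * |s - t|) : Continuous φ := by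
  have h1 : LipschitzWith K.toNNReal φ := by
    refine LipschitzWith.of_dist_le_mul fun s t => ?_
    rw [Real.dist_eq, Real.dist_eq, Real.coe_toNNReal K hK]
    exact hlip s t
  exact h1.continuous

/-- exponential moments along the tree against the exponential moment of the block -/
theorem ML_mgf (hF : Fam u v a b β₁ β₂) (hT : FT T u a b L) (hK : 0 ≤ K)
    (hlip : ∀ s t, |φ s - φ t| ≤ K * |s - t|) {t : ℝ} (ht : 0 ≤ t) {k i : ℕ} (hi : i < T.N k) :
    (∫ x in T.t k i..T.t k (i + 1), Real.exp (t * ∑ l ∈ Finset.Ico (k * L) (k * L + L), φ (u l x))) *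
        Real.exp (-(4 * K * (β₁ / (β₁ - 1)) * t)) ≤
      ∑ j ∈ T.ch k i, T.len (k + 1) j * Real.exp (t * (ML φ u L T (k + 1) j - ML φ u L T k i)) ∧
    ∑ j ∈ T.ch k i, T.len (k + 1) j * Real.exp (t * (ML φ u L T (k + 1) j - ML φ u L T k i)) ≤
      (∫ x in T.t k i..T.t k (i + 1), Real.exp (t * ∑ l ∈ Finset.Ico (k * L) (k * L + L), φ (u l x))) *
        Real.exp (4 * K * (β₁ / (β₁ - 1)) * t) := by
  set c := 4 * K * (β₁ / (β₁ - 1)) with hc
  set B : ℝ → ℝ := fun x => ∑ l ∈ Finset.Ico (k * L) (k * L + L), φ (u l x) with hB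
  have hφc := lip_cont hK hlip
  have hBc : ContinuousOn (fun x => Real.exp (t * B x)) (Icc a b) := by
    refine Real.continuous_exp.comp_continuousOn (continuousOn_const.mul (continuousOn_finsetSum _ fun j _ => ?_))
    exact hφc.comp_continuousOn (hF.cont_u j)
  have hint : ∀ j ∈ T.ch k i, IntervalIntegrable (fun x => Real.exp (t * B x)) volume (T.t (k + 1) j)
      (T.t (k + 1) (j + 1)) := by
    intro j hj
    have hjN := T.ch_lt k hi hj
    refine ContinuousOn.intervalIntegrable ?_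
    rw [uIcc_of_le (T.lt _ _ hjN).le]
    exact hBc.mono (Icc_subset_Icc (hT.mem _ _ hjN.le).1 (hT.mem _ _ hjN).2)
  have hsplit : ∑ j ∈ T.ch k i, ∫ x in T.t (k + 1) j..T.t (k + 1) (j + 1), Real.exp (t * B x) =
      ∫ x in T.t k i..T.t k (i + 1), Real.exp (t * B x) := by
    unfold Tr.ch
    rw [intervalIntegral.sum_integral_adjacent_intervals_Ico (T.Jlt k i hi).le
      (fun j hj => hint j (by rw [Tr.ch, Finset.mem_Ico]; exact hj)), T.ref k i hi.le, T.ref k (i + 1) hi]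
  have hconst : ∀ j (z : ℝ), T.len (k + 1) j * z = ∫ _ in T.t (k + 1) j..T.t (k + 1) (j + 1), z := by
    intro j z
    rw [intervalIntegral.integral_const, smul_eq_mul]; rfl
  rw [← hsplit, Finset.sum_mul, Finset.sum_mul]
  constructor
  · refine Finset.sum_le_sum fun j hj => ?_
    have hjN := T.ch_lt k hi hj
    rw [hconst, ← intervalIntegral.integral_mul_const]
    refine intervalIntegral.integral_mono_on (T.lt _ _ hjN).le ((hint j hj).mul_const _) intervalIntegrable_const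
      fun x hx => ?_
    rw [← Real.exp_add, Real.exp_le_exp]
    have h1 := (abs_le.1 (ML_block hF hT hK hlip hi hj hx)).1
    have h2 := mul_le_mul_of_nonneg_left h1 ht
    rw [← hc] at h2
    have h3 : t * (ML φ u L T (k + 1) j - ML φ u L T k i - B x)
        = t * (ML φ u L T (k + 1) j - ML φ u L T k i) - t * B x := by ring
    rw [h3] at h2
    linarith
  · refine Finset.sum_le_sum fun j hj => ?_
    have hjN := T.ch_lt k hi hj
    rw [hconst, ← intervalIntegral.integral_mul_const]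
    refine intervalIntegral.integral_mono_on (T.lt _ _ hjN).le intervalIntegrable_const ((hint j hj).mul_const _)
      fun x hx => ?_
    rw [← Real.exp_add, Real.exp_le_exp]
    have h1 := (abs_le.1 (ML_block hF hT hK hlip hi hj hx)).2
    have h2 := mul_le_mul_of_nonneg_left h1 ht
    rw [← hc] at h2
    have h3 : t * (ML φ u L T (k + 1) j - ML φ u L T k i - B x)
        = t * (ML φ u L T (k + 1) j - ML φ u L T k i) - t * B x := by ring
    rw [h3] at h2
    linarith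

/-- comparison with the sum at a point and a time in between -/
theorem ML_S (hF : Fam u v a b β₁ β₂) (hT : FT T u a b L) (hK : 0 ≤ K)
    (hlip : ∀ s t, |φ s - φ t| ≤ K * |s - t|) {B : ℝ} (hbd : ∀ t, |φ t| ≤ B) {k i : ℕ} (hi : i < T.N k) {x : ℝ}
    (hx : x ∈ T.cell k i) {N : ℕ} (hkN : k * L ≤ N) (hNk : N ≤ (k + 1) * L) :
    |S φ u N x - ML φ u L T k i| ≤ B * L + 2 * K * (β₁ / (β₁ - 1)) := by
  have hti := hT.mem k i hi.le
  have hti1 := hT.mem k (i + 1) hi
  have hxab : x ∈ Icc a b := ⟨hti.1.trans hx.1, hx.2.trans hti1.2⟩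
  have hu2 : u (k * L) x - u (k * L) (T.t k i) ≤ 2 := by
    have h1 := incr_nonneg hF (k * L) hxab hti1 hx.2
    have h2 := (hT.inc k i hi).2
    linarith
  have h2 := S_osc hF hK hlip (k * L) hti hxab hx.1 hu2
  have hB : 0 ≤ B := (abs_nonneg _).trans (hbd 0)
  have h1 : |S φ u N x - S φ u (k * L) x| ≤ B * L := by
    have h3 : S φ u N x - S φ u (k * L) x = ∑ n ∈ Finset.Ico (k * L) N, φ (u n x) := by
      rw [S, S, Finset.sum_Ico_eq_sub _ hkN]
    rw [h3]
    refine (Finset.abs_sum_le_sum_abs _ _).trans ((Finset.sum_le_sum fun n _ => hbd _).trans ?_)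
    rw [Finset.sum_const, Nat.card_Ico, nsmul_eq_mul, mul_comm]
    have h4 : N - k * L ≤ L := by
      have : (k + 1) * L = k * L + L := by ring
      omega
    have h5 : ((N - k * L : ℕ) : ℝ) ≤ L := by exact_mod_cast h4
    exact mul_le_mul_of_nonneg_left h5 hB
  have h4 : S φ u N x - ML φ u L T k i = (S φ u N x - S φ u (k * L) x) + (S φ u (k * L) x - S φ u (k * L) (T.t k i)) := by
    unfold ML; ring
  rw [h4]
  exact (abs_add_le _ _).trans (add_le_add h1 h2)

end tree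

theorem dimH_le_one (A : Set ℝ) : dimH A ≤ 1 := by
  have h := dimH_mono (subset_univ A)
  rwa [Real.dimH_univ] at h

theorem fam_upper {u v : ℕ → ℝ → ℝ} {a b β₁ β₂ : ℝ} (hF : Fam u v a b β₁ β₂) {φ : ℝ → ℝ} {K B : ℝ} (hK : 0 ≤ K)
    (hlip : ∀ s t, |φ s - φ t| ≤ K * |s - t|) (hbd : ∀ t, |φ t| ≤ B) {t Λ : ℝ} (ht : 0 ≤ t) {L : ℕ} (hL : 1 ≤ L)
    (hblock : ∀ (n : ℕ) (p q : ℝ), a ≤ p → p < q → q ≤ b → 1 ≤ u n q - u n p → u n q - u n p ≤ 2 →
      (∫ x in p..q, Real.exp (t * ∑ j ∈ Finset.Ico n (n + L), φ (u j x))) ≤ (q - p) * Real.exp Λ) (h : ℝ) :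
    dimH {x | x ∈ Icc a b ∧ ∃ᶠ N : ℕ in atTop, h * N ≤ S φ u N x} ≤
      ENNReal.ofReal (1 - (t * h * L - Λ - 4 * K * (β₁ / (β₁ - 1)) * t) / (L * Real.log β₂)) := by
  have hLr : (1 : ℝ) ≤ L := by exact_mod_cast hL
  have hlβ₁ : 0 < Real.log β₁ := Real.log_pos hF.hβ
  have hβ₂ : 1 < β₂ := hF.hβ.trans_le hF.hβ'
  have hlβ₂ : 0 < Real.log β₂ := Real.log_pos hβ₂
  have hβ1 : 0 < β₁ - 1 := by linarith [hF.hβ]
  have hβ0 : 0 < β₁ := by linarith
  set c := 4 * K * (β₁ / (β₁ - 1)) with hc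
  have hc0 : 0 ≤ c := by positivity
  set sd := 1 - (t * h * L - Λ - c * t) / (L * Real.log β₂) with hsd
  -- trivial case
  rcases le_or_gt 1 sd with h1 | h1
  · refine (dimH_le_one _).trans ?_
    rw [← ENNReal.ofReal_one]
    exact ENNReal.ofReal_le_ofReal h1
  have hpos : 0 < t * h * L - Λ - c * t := by
    by_contra hcon
    push Not at hcon
    have : (t * h * L - Λ - c * t) / (L * Real.log β₂) ≤ 0 := div_nonpos_of_nonpos_of_nonneg hcon (by positivity)
    rw [hsd] at h1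
    linarith
  have ht0 : 0 < t := by
    rcases ht.lt_or_eq with h2 | h2
    · exact h2
    · exfalso
      have h3 := hblock 0 a b le_rfl hF.hab le_rfl hF.root.1 hF.root.2
      rw [← h2] at h3 hpos
      simp only [zero_mul, Real.exp_zero, intervalIntegral.integral_const, smul_eq_mul, mul_one] at h3
      have h4 : 0 < b - a := by linarith [hF.hab]
      have h5 : 1 ≤ Real.exp Λ := by
        by_contra hcon
        push Not at hcon
        nlinarith
      have h6 : 0 ≤ Λ := Real.one_le_exp_iff.1 h5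
      linarith
  obtain ⟨T, hT0, hT1, hTm, hTc, hTi⟩ := exists_tree hF L hL
  have hT : FT T u a b L := ⟨hT0, hT1, hTm, hTc, hTi⟩
  obtain ⟨c₀, C₀, hc₀, hC₀, hsize⟩ := size hF
  have hB : 0 ≤ B := (abs_nonneg _).trans (hbd 0)
  have hmgf : T.MGFle (ML φ u L T) t (Λ + c * t) := by
    intro k i hi
    refine (ML_mgf hF hT hK hlip ht hi).2.trans ?_
    have h2 := hblock (k * L) _ _ (hT.mem k i hi.le).1 (T.lt k i hi) (hT.mem k (i + 1) hi).2 (hT.inc k i hi).1
      (hT.inc k i hi).2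
    rw [Real.exp_add, ← mul_assoc]
    exact mul_le_mul_of_nonneg_right h2 (Real.exp_pos _).le
  -- bound for every larger exponent
  have key : ∀ s : ℝ, max sd 0 < s → s ≤ 1 →
      dimH {x | x ∈ Icc a b ∧ ∃ᶠ N : ℕ in atTop, h * N ≤ S φ u N x} ≤ ENNReal.ofReal s := by
    intro s hs hs1
    have hs0 : 0 ≤ s := (le_max_right _ _).trans hs.le
    have hssd : sd < s := (le_max_left _ _).trans_lt hs
    set η := (s - sd) * Real.log β₂ / (2 * t) with hη
    have hη0 : 0 < η := by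
      have : 0 < s - sd := by linarith
      positivity
    have hup := upper_tree T (ML φ u L T) (θ := t) (Λ := Λ + c * t) (h := (h - η) * L) (s := s)
      (ℓ₁ := L * Real.log β₁) (ℓ₂ := L * Real.log β₂) (c := c₀) (C := C₀) ht0 hs0 hs1 (by positivity) hc₀ hC₀
      (fun k i hi => by
        have h1 := (hsize (k * L) _ (hT.mem k i hi.le) _ (hT.mem k (i + 1) hi) (T.lt k i hi) (hT.inc k i hi).1
          (hT.inc k i hi).2).1
        rw [exp_size] at h1
        exact h1) (fun k i hi => by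
        have h1 := (hsize (k * L) _ (hT.mem k i hi.le) _ (hT.mem k (i + 1) hi) (T.lt k i hi) (hT.inc k i hi).1
          (hT.inc k i hi).2).2
        rw [exp_size] at h1
        exact h1) hmgf ?_
    · refine le_trans (dimH_mono ?_) hup
      rintro x ⟨hx, hfr⟩
      rw [mem_ofPred_eq, frequently_atTop]
      intro k₀
      obtain ⟨k₁, hk₁⟩ := exists_nat_gt ((B * L + 2 * K * (β₁ / (β₁ - 1)) + |h| * L) / (η * L))
      obtain ⟨N, hN, hSN⟩ := (frequently_atTop.1 hfr) ((max k₀ k₁) * L)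
      have hkN : (N / L) * L ≤ N := Nat.div_mul_le_self N L
      have hNk : N ≤ (N / L + 1) * L := by
        have := Nat.lt_div_mul_add (a := N) (b := L) (by omega)
        rw [Nat.add_mul]
        omega
      have hk : max k₀ k₁ ≤ N / L := (Nat.le_div_iff_mul_le (by omega)).2 hN
      obtain ⟨i, hi, hxi⟩ := hTc x hx (N / L)
      refine ⟨N / L, (le_max_left _ _).trans hk, i, hi, hxi, ?_⟩
      have h1 := (abs_le.1 (ML_S hF hT hK hlip hbd hi hxi hkN hNk)).2
      have h3 : (B * L + 2 * K * (β₁ / (β₁ - 1)) + |h| * L) / (η * L) ≤ (N / L : ℕ) := by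
        have h4 : (k₁ : ℝ) ≤ (N / L : ℕ) := by exact_mod_cast (le_max_right _ _).trans hk
        linarith
      rw [div_le_iff₀ (by positivity)] at h3
      have h5 : ((N / L : ℕ) : ℝ) * L ≤ N := by exact_mod_cast hkN
      have h6 : (N : ℝ) ≤ ((N / L : ℕ) : ℝ) * L + L := by
        have : (N : ℝ) ≤ (((N / L + 1) * L : ℕ) : ℝ) := by exact_mod_cast hNk
        push_cast at this
        linarith
      have h7 : h * (((N / L : ℕ) : ℝ) * L) - |h| * L ≤ h * N := by
        have h8 : |h * (((N / L : ℕ) : ℝ) * L - N)| ≤ |h| * L := by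
          rw [abs_mul]
          exact mul_le_mul_of_nonneg_left (abs_le.2 ⟨by linarith, by linarith⟩) (abs_nonneg h)
        have h9 := (abs_le.1 h8).2
        have h10 : h * (((N / L : ℕ) : ℝ) * L - N) = h * (((N / L : ℕ) : ℝ) * L) - h * N := by ring
        linarith
      have h11 : (h - η) * L * ((N / L : ℕ) : ℝ) = h * (((N / L : ℕ) : ℝ) * L) - ((N / L : ℕ) : ℝ) * (η * L) := by ring
      rw [h11]
      linarith
    · have h2 : (1 - sd) * (L * Real.log β₂) = t * h * L - Λ - c * t := by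
        rw [hsd]; field_simp; ring
      have h3 : t * (η * L) = (s - sd) * (L * Real.log β₂) / 2 := by
        rw [hη]; field_simp
      have h4 : 0 < (s - sd) * (L * Real.log β₂) := by
        have : 0 < s - sd := by linarith
        positivity
      have h5 : Λ + c * t - t * ((h - η) * L) + (1 - s) * (L * Real.log β₂)
          = -(t * h * L - Λ - c * t) + t * (η * L) + (1 - sd) * (L * Real.log β₂)
            - (s - sd) * (L * Real.log β₂) := by ring
      rw [h5, h2, h3]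
      linarith
  have hlt : max sd 0 < 1 := max_lt h1 one_pos
  have htend : Tendsto (fun s : ℝ => ENNReal.ofReal s) (𝓝[>] (max sd 0)) (𝓝 (ENNReal.ofReal (max sd 0))) :=
    (ENNReal.continuous_ofReal.tendsto _).mono_left nhdsWithin_le_nhds
  have hle : dimH {x | x ∈ Icc a b ∧ ∃ᶠ N : ℕ in atTop, h * N ≤ S φ u N x} ≤ ENNReal.ofReal (max sd 0) := by
    refine ge_of_tendsto htend ?_
    filter_upwards [Ioo_mem_nhdsGT hlt] with s hs
    exact key s hs.1 hs.2.le
  refine hle.trans (le_of_eq ?_)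
  rcases le_total sd 0 with h2 | h2
  · rw [max_eq_right h2, ENNReal.ofReal_zero, ENNReal.ofReal_of_nonpos h2]
  · rw [max_eq_left h2]

theorem fam_lower {u v : ℕ → ℝ → ℝ} {a b β₁ β₂ : ℝ} (hF : Fam u v a b β₁ β₂) {φ : ℝ → ℝ} {K B : ℝ} (hK : 0 ≤ K)
    (hlip : ∀ s t, |φ s - φ t| ≤ K * |s - t|) (hbd : ∀ t, |φ t| ≤ B) {t t₁ t₂ Λ Λ₁ Λ₂ h₁ h₂ : ℝ} (ht : 0 < t)
    (ht₁ : 0 < t₁) (ht₁t : t₁ ≤ t) (ht₂ : 0 < t₂) (ht₂t : t₂ ≤ t) {L : ℕ} (hL : 1 ≤ L)
    (hge : ∀ (n : ℕ) (p q : ℝ), a ≤ p → p < q → q ≤ b → 1 ≤ u n q - u n p → u n q - u n p ≤ 2 →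
      (q - p) * Real.exp Λ ≤ (∫ x in p..q, Real.exp (t * ∑ j ∈ Finset.Ico n (n + L), φ (u j x))))
    (hle₁ : ∀ (n : ℕ) (p q : ℝ), a ≤ p → p < q → q ≤ b → 1 ≤ u n q - u n p → u n q - u n p ≤ 2 →
      (∫ x in p..q, Real.exp ((t + t₁) * ∑ j ∈ Finset.Ico n (n + L), φ (u j x))) ≤ (q - p) * Real.exp Λ₁)
    (hle₂ : ∀ (n : ℕ) (p q : ℝ), a ≤ p → p < q → q ≤ b → 1 ≤ u n q - u n p → u n q - u n p ≤ 2 →
      (∫ x in p..q, Real.exp ((t - t₂) * ∑ j ∈ Finset.Ico n (n + L), φ (u j x))) ≤ (q - p) * Real.exp Λ₂)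
    (hc₁ : Λ₁ - Λ + 4 * K * (β₁ / (β₁ - 1)) * (3 * t) < t₁ * h₂ * L)
    (hc₂ : Λ₂ - Λ + 4 * K * (β₁ / (β₁ - 1)) * (3 * t) + t₂ * h₁ * L < 0) (hI : 0 ≤ t * h₂ * L - Λ) {h : ℝ} (hh : h < h₁) :
    ENNReal.ofReal (1 - (t * h₂ * L - Λ + 4 * K * (β₁ / (β₁ - 1)) * t) / (L * Real.log β₁)) ≤
      dimH {x | x ∈ Icc a b ∧ ∀ᶠ N : ℕ in atTop, h * N ≤ S φ u N x} := by
  have hLr : (1 : ℝ) ≤ L := by exact_mod_cast hL
  have hlβ₁ : 0 < Real.log β₁ := Real.log_pos hF.hβ
  have hβ1 : 0 < β₁ - 1 := by linarith [hF.hβ]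
  have hβ0 : 0 < β₁ := by linarith
  set c := 4 * K * (β₁ / (β₁ - 1)) with hc
  have hc0 : 0 ≤ c := by positivity
  obtain ⟨T, hT0, hT1, hTm, hTc, hTi⟩ := exists_tree hF L hL
  have hT : FT T u a b L := ⟨hT0, hT1, hTm, hTc, hTi⟩
  obtain ⟨c₀, C₀, hc₀, hC₀, hsize⟩ := size hF
  have hB : 0 ≤ B := (abs_nonneg _).trans (hbd 0)
  have hcell : ∀ k i, i < T.N k → a ≤ T.t k i ∧ T.t k i < T.t k (i + 1) ∧ T.t k (i + 1) ≤ b ∧
      1 ≤ u (k * L) (T.t k (i + 1)) - u (k * L) (T.t k i) ∧ u (k * L) (T.t k (i + 1)) - u (k * L) (T.t k i) ≤ 2 :=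
    fun k i hi => ⟨(hT.mem k i hi.le).1, T.lt k i hi, (hT.mem k (i + 1) hi).2, (hT.inc k i hi).1, (hT.inc k i hi).2⟩
  have hM0 : T.MGFge (ML φ u L T) t (Λ - c * t) := by
    intro k i hi
    refine le_trans ?_ (ML_mgf hF hT hK hlip ht.le hi).1
    obtain ⟨g1, g2, g3, g4, g5⟩ := hcell k i hi
    have h2 := hge (k * L) _ _ g1 g2 g3 g4 g5
    rw [sub_eq_add_neg, Real.exp_add, ← mul_assoc]
    exact mul_le_mul_of_nonneg_right h2 (Real.exp_pos _).le
  have hM1 : T.MGFle (ML φ u L T) (t + t₁) (Λ₁ + c * (t + t₁)) := by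
    intro k i hi
    refine (ML_mgf hF hT hK hlip (by positivity) hi).2.trans ?_
    obtain ⟨g1, g2, g3, g4, g5⟩ := hcell k i hi
    have h2 := hle₁ (k * L) _ _ g1 g2 g3 g4 g5
    rw [Real.exp_add, ← mul_assoc]
    exact mul_le_mul_of_nonneg_right h2 (Real.exp_pos _).le
  have hM2 : T.MGFle (ML φ u L T) (t - t₂) (Λ₂ + c * (t - t₂)) := by
    intro k i hi
    refine (ML_mgf hF hT hK hlip (by linarith) hi).2.trans ?_
    obtain ⟨g1, g2, g3, g4, g5⟩ := hcell k i hi
    have h2 := hle₂ (k * L) _ _ g1 g2 g3 g4 g5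
    rw [Real.exp_add, ← mul_assoc]
    exact mul_le_mul_of_nonneg_right h2 (Real.exp_pos _).le
  have hct : 0 ≤ c * t := by positivity
  have hct1 : c * t₁ ≤ c * t := mul_le_mul_of_nonneg_left ht₁t hc0
  have hct2 : 0 ≤ c * t₂ := by positivity
  have hlow := lower_tree T (ML φ u L T) (θ := t) (θ₁ := t₁) (θ₂ := t₂) (Λ := Λ - c * t)
    (Λ₁ := Λ₁ + c * (t + t₁)) (Λ₂ := Λ₂ + c * (t - t₂)) (h₁ := h₁ * L) (h₂ := h₂ * L) (ℓ₁ := L * Real.log β₁)
    (C := C₀) ht ht₁ ht₂ (by positivity) hC₀ (fun k i hi => by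
      have h1 := (hsize (k * L) _ (hT.mem k i hi.le) _ (hT.mem k (i + 1) hi) (T.lt k i hi) (hT.inc k i hi).1
        (hT.inc k i hi).2).2
      rw [exp_size] at h1
      exact h1) hM0 hM1 hM2 (by nlinarith) (by nlinarith) (by nlinarith)
  have e1 : t * (h₂ * L) - (Λ - c * t) = t * h₂ * L - Λ + c * t := by ring
  rw [e1] at hlow
  refine hlow.trans (dimH_mono ?_)
  rintro x ⟨k₁, hk₁⟩
  refine ⟨?_, ?_⟩
  · obtain ⟨i, hi, hx, _⟩ := hk₁ k₁ le_rfl
    exact ⟨(hT.mem _ _ hi.le).1.trans hx.1, hx.2.trans (hT.mem _ _ hi).2⟩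
  · have hhh : 0 < h₁ - h := by linarith
    obtain ⟨k₂, hk₂⟩ := exists_nat_gt ((B * L + 2 * K * (β₁ / (β₁ - 1)) + |h| * L) / ((h₁ - h) * L))
    rw [eventually_atTop]
    refine ⟨(max k₁ k₂) * L, fun N hN => ?_⟩
    have hkN : (N / L) * L ≤ N := Nat.div_mul_le_self N L
    have hNk : N ≤ (N / L + 1) * L := by
      have := Nat.lt_div_mul_add (a := N) (b := L) (by omega)
      rw [Nat.add_mul]
      omega
    have hk : max k₁ k₂ ≤ N / L := (Nat.le_div_iff_mul_le (by omega)).2 hN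
    obtain ⟨i, hi, hxi, hMi⟩ := hk₁ (N / L) ((le_max_left _ _).trans hk)
    have h1 := (abs_le.1 (ML_S hF hT hK hlip hbd hi hxi hkN hNk)).1
    have hM00 : ML φ u L T 0 0 = 0 := by unfold ML S; simp
    rw [hM00, zero_add] at hMi
    have h3 : (B * L + 2 * K * (β₁ / (β₁ - 1)) + |h| * L) / ((h₁ - h) * L) ≤ (N / L : ℕ) := by
      have h4 : (k₂ : ℝ) ≤ (N / L : ℕ) := by exact_mod_cast (le_max_right _ _).trans hk
      linarith
    rw [div_le_iff₀ (by positivity)] at h3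
    have h5 : ((N / L : ℕ) : ℝ) * L ≤ N := by exact_mod_cast hkN
    have h6 : (N : ℝ) ≤ ((N / L : ℕ) : ℝ) * L + L := by
      have : (N : ℝ) ≤ (((N / L + 1) * L : ℕ) : ℝ) := by exact_mod_cast hNk
      push_cast at this
      linarith
    have h7 : h * N ≤ h * (((N / L : ℕ) : ℝ) * L) + |h| * L := by
      have h8 : |h * (((N / L : ℕ) : ℝ) * L - N)| ≤ |h| * L := by
        rw [abs_mul]
        exact mul_le_mul_of_nonneg_left (abs_le.2 ⟨by linarith, by linarith⟩) (abs_nonneg h)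
      have h9 := (abs_le.1 h8).1
      have h10 : h * (((N / L : ℕ) : ℝ) * L - N) = h * (((N / L : ℕ) : ℝ) * L) - h * N := by ring
      linarith
    have h11 : ((N / L : ℕ) : ℝ) * ((h₁ - h) * L) = h₁ * L * ((N / L : ℕ) : ℝ) - h * (((N / L : ℕ) : ℝ) * L) := by ring
    rw [h11] at h3
    linarith

end Pool.Agent.Helper44.KX
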